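import Pool.Agent.H28.Glue.Atom

/-!
# Reduction to the atoms

A graph satisfies the conjecture as soon as each of its atoms (for the decomposition by clique
separators: cut vertices and separating edges) with at least three vertices satisfies it for one pair
of vertices on different sides, or has an automorphism which exchanges the sides.
-/

namespace Pool.Agent.Results.MP_b72371_co.Atoms

open Pool.Glue28

theorem result (X : BipGraph) (h3 : 3 ≤ X.order)
    (hX : ∀ Y : BipGraph, IsAtomOf Y X → 3 ≤ Y.order →
      (∃ a b : Y.V, Y.col a ≠ Y.col b ∧ SameOrder (Y.glue Y a b).ex Y.ex) ∨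
        ∃ σ : Y.graph ≃g Y.graph, ∀ x, Y.col (σ x) ≠ Y.col x) : Q1 X :=
  q1_of_atoms X h3 hX

end Pool.Agent.Results.MP_b72371_co.Atoms
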