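import Pool.Agent.H28.Glue.Atom

/-!
# The class of graphs which satisfy the conjecture is closed under gluing

`G` is obtained from `X` and `Y` by gluing at a vertex or along an edge. If `X` satisfies the
conjecture for one pair of vertices on different sides, and `Y` does so too or is contained in `X`,
then `G` satisfies it for all pairs, and its extremal number has the order of the sum of those of `X`
and `Y`.
-/

namespace Pool.Agent.Results.MP_b72371_co.Closure

open Pool.Glue28

theorem result (X Y G : BipGraph) (hG : IsGluing X Y G)
    (hX : ∃ a b : X.V, X.col a ≠ X.col b ∧ SameOrder (X.glue X a b).ex X.ex)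
    (hY : (∃ a b : Y.V, Y.col a ≠ Y.col b ∧ SameOrder (Y.glue Y a b).ex Y.ex) ∨
      SimpleGraph.IsContained Y.graph X.graph) :
    Q1 G ∧ SameOrder G.ex fun n => X.ex n + Y.ex n :=
  closure hG hX hY

end Pool.Agent.Results.MP_b72371_co.Closure
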