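import Pool.Agent.H28.Glue.Final

/-!
# Every glued pair satisfies the conjecture

Let `X` be any connected bipartite graph and let `u`, `v` be vertices of `X` on different sides. The
graph `H` made of two copies of `X` glued at `u` and `v` satisfies the conjecture: for all vertices
`x`, `y` of `H` on different sides, two copies of `H` glued at `x` and `y` have an extremal number of
the same order as that of `H`.
-/

namespace Pool.Agent.Results.MP_b72371_co.GluedPairs

open Pool.Glue28

theorem result (X : BipGraph) (u v : X.V) (huv : X.col u ≠ X.col v) : Q1 (X.glue X u v) :=
  fun x y _ => q1_of_good (BipGraph.order_glue X X u v) (good_glue X huv) x y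

end Pool.Agent.Results.MP_b72371_co.GluedPairs
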