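import Pool.Agent.H28.Glue.Final

/-!
# A bound for two arbitrary graphs glued at a vertex
-/

namespace Pool.Agent.Results.MP_b72371_co.SquareBound

open Pool.Glue28

theorem result (X Y : BipGraph) (h3 : 3 ≤ X.order) (u : X.V) (v : Y.V) :
    ∃ C : ℕ, ∀ n, 2 ≤ n → (X.glue Y u v).ex n ^ 2 ≤ C * n ^ 2 * (X.ex n + Y.ex n) :=
  ex_glue_sq X Y h3 u v

end Pool.Agent.Results.MP_b72371_co.SquareBound
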